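import Mathlib

/-! # Representations by `x² + d y²`: at most `(8 d + 1)² τ(N)²` (elementary) -/

set_option autoImplicit false

namespace Pool.Helper34.R7

/-- two primitive solutions with the same `gcd (x y₀ - x₀ y, N)` -/
theorem rep_two {d N e e' : ℕ} (hN : e * e' = N) (h0 : 0 < N) {x y x' y' x0 y0 : ℤ}
    (h1 : x ^ 2 + d * y ^ 2 = N) (h2 : x' ^ 2 + d * y' ^ 2 = N) (hc : IsCoprime x y)
    (hc0 : IsCoprime x0 y0) (h3 : x0 ^ 2 + d * y0 ^ 2 = N)
    (hu : (e : ℤ) ∣ x * y0 - x0 * y) (hu' : (e : ℤ) ∣ x' * y0 - x0 * y')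
    (hv : (e' : ℤ) ∣ x * y0 + x0 * y) (hv' : (e' : ℤ) ∣ x' * y0 + x0 * y') :
    Nat.gcd e e' ∣ 4 * d ∧ (Nat.lcm e e' : ℤ) ∣ x * x' + d * (y * y') ∧
      (Nat.lcm e e' : ℤ) ∣ x * y' - x' * y := by
  have hcN0 : IsCoprime (N : ℤ) y0 := by
    rw [← h3]
    have h4 : IsCoprime (x0 ^ 2 + y0 * (d * y0)) y0 := (hc0.pow_left).add_mul_left_left _
    have h5 : x0 ^ 2 + (d : ℤ) * y0 ^ 2 = x0 ^ 2 + y0 * (d * y0) := by ring
    rw [h5]
    exact h4
  have hcN : IsCoprime (N : ℤ) y := by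
    rw [← h1]
    have h4 : IsCoprime (x ^ 2 + y * (d * y)) y := (hc.pow_left).add_mul_left_left _
    have h5 : x ^ 2 + (d : ℤ) * y ^ 2 = x ^ 2 + y * (d * y) := by ring
    rw [h5]
    exact h4
  have heN : (e : ℤ) ∣ N := by
    rw [← hN]
    exact Int.natCast_dvd_natCast.2 (dvd_mul_right _ _)
  have heN' : (e' : ℤ) ∣ N := by
    rw [← hN]
    exact Int.natCast_dvd_natCast.2 (dvd_mul_left _ _)
  set h : ℕ := Nat.gcd e e' with hh
  set m : ℕ := Nat.lcm e e' with hm
  have hhm : h * m = N := by rw [hh, hm, Nat.gcd_mul_lcm, hN]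
  have hhe : (h : ℤ) ∣ e := Int.natCast_dvd_natCast.2 (Nat.gcd_dvd_left _ _)
  have hhe' : (h : ℤ) ∣ e' := Int.natCast_dvd_natCast.2 (Nat.gcd_dvd_right _ _)
  have hhN : (h : ℤ) ∣ N := hhe.trans heN
  refine ⟨?_, ?_⟩
  · have a1 : (h : ℤ) ∣ 2 * x * y0 := by
      have := dvd_add (hhe.trans hu) (hhe'.trans hv)
      have e1 : x * y0 - x0 * y + (x * y0 + x0 * y) = 2 * x * y0 := by ring
      rwa [e1] at this
    have a2 : (h : ℤ) ∣ 2 * x :=
      (IsCoprime.of_isCoprime_of_dvd_left hcN0 hhN).dvd_of_dvd_mul_right a1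
    have a3 : (h : ℤ) ∣ 4 * d * (y ^ 2) := by
      have b1 : (h : ℤ) ∣ 4 * N := hhN.mul_left 4
      have b2 : (h : ℤ) ∣ 2 * x * (2 * x) := a2.mul_right _
      have := dvd_sub b1 b2
      have e1 : 4 * (N : ℤ) - 2 * x * (2 * x) = 4 * d * (y ^ 2) := by
        rw [← h1]
        ring
      rwa [e1] at this
    have a4 : (h : ℤ) ∣ 4 * d :=
      ((IsCoprime.of_isCoprime_of_dvd_left hcN hhN).pow_right).dvd_of_dvd_mul_right a3
    have a5 : (h : ℤ) ∣ ((4 * d : ℕ) : ℤ) := by
      push_cast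
      exact a4
    exact Int.natCast_dvd_natCast.1 a5
  · have b1 : (e : ℤ) ∣ x * y' - x' * y := by
      have c1 : (e : ℤ) ∣ (x * y' - x' * y) * y0 := by
        have := dvd_sub (hu.mul_left y') (hu'.mul_left y)
        have e1 : y' * (x * y0 - x0 * y) - y * (x' * y0 - x0 * y') =
          (x * y' - x' * y) * y0 := by ring
        rwa [e1] at this
      exact (IsCoprime.of_isCoprime_of_dvd_left hcN0 heN).dvd_of_dvd_mul_right c1
    have b2 : (e' : ℤ) ∣ x * y' - x' * y := by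
      have c1 : (e' : ℤ) ∣ (x * y' - x' * y) * y0 := by
        have := dvd_sub (hv.mul_left y') (hv'.mul_left y)
        have e1 : y' * (x * y0 + x0 * y) - y * (x' * y0 + x0 * y') =
          (x * y' - x' * y) * y0 := by ring
        rwa [e1] at this
      exact (IsCoprime.of_isCoprime_of_dvd_left hcN0 heN').dvd_of_dvd_mul_right c1
    have b3 : (m : ℤ) ∣ x * y' - x' * y := by
      rw [Int.natCast_dvd] at b1 b2 ⊢
      exact Nat.lcm_dvd b1 b2
    have hmN : (m : ℤ) ∣ N := by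
      rw [← hhm]
      exact Int.natCast_dvd_natCast.2 (dvd_mul_left _ _)
    refine ⟨?_, b3⟩
    have b4 : (m : ℤ) ^ 2 ∣ (x * x' + d * (y * y')) ^ 2 := by
      have c1 : (m : ℤ) ^ 2 ∣ (N : ℤ) ^ 2 := pow_dvd_pow_of_dvd hmN 2
      have c2 : (m : ℤ) ^ 2 ∣ d * (x * y' - x' * y) ^ 2 :=
        (pow_dvd_pow_of_dvd b3 2).mul_left _
      have := dvd_sub c1 c2
      have e1 : (N : ℤ) ^ 2 - d * (x * y' - x' * y) ^ 2 = (x * x' + d * (y * y')) ^ 2 := by
        have e2 : (N : ℤ) ^ 2 = (x ^ 2 + d * y ^ 2) * (x' ^ 2 + d * y' ^ 2) := by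
          rw [h1, h2]
          ring
        rw [e2]
        ring
      rwa [e1] at this
    rwa [Int.pow_dvd_pow_iff (by norm_num)] at b4

/-- primitive solutions -/
theorem rep_prim (d N : ℕ) (hd : 1 ≤ d) (hN : 1 ≤ N) (S : Finset (ℤ × ℤ))
    (hS : ∀ p ∈ S, p.1 ^ 2 + d * p.2 ^ 2 = N ∧ IsCoprime p.1 p.2) :
    S.card ≤ (8 * d + 1) ^ 2 * N.divisors.card := by
  classical
  rcases S.eq_empty_or_nonempty with hE | ⟨⟨x0, y0⟩, hs0⟩
  · rw [hE]
    simp
  obtain ⟨h30, hc0⟩ := hS _ hs0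
  dsimp only at h30 hc0
  have hNz : (N : ℤ) ≠ 0 := by exact_mod_cast (by omega : N ≠ 0)
  refine Finset.card_le_mul_card_image_of_maps_to
    (f := fun p : ℤ × ℤ => Int.gcd (p.1 * y0 - x0 * p.2) N) (t := N.divisors) ?_ _ ?_
  · intro p _
    rw [Nat.mem_divisors]
    refine ⟨?_, by omega⟩
    have := Int.gcd_dvd_right (p.1 * y0 - x0 * p.2) (N : ℤ)
    exact Int.natCast_dvd_natCast.1 this
  · intro e he
    rw [Nat.mem_divisors] at he
    obtain ⟨⟨e', hee⟩, -⟩ := he
    have he0 : 0 < e := Nat.pos_of_ne_zero fun h => by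
      rw [h, Nat.zero_mul] at hee
      omega
    -- the divisibilities
    have key : ∀ p ∈ S, Int.gcd (p.1 * y0 - x0 * p.2) N = e →
        (e : ℤ) ∣ p.1 * y0 - x0 * p.2 ∧ (e' : ℤ) ∣ p.1 * y0 + x0 * p.2 := by
      intro p hp hpe
      obtain ⟨h1, -⟩ := hS p hp
      have a1 : (e : ℤ) ∣ p.1 * y0 - x0 * p.2 := by
        rw [← hpe]
        exact Int.gcd_dvd_left _ _
      refine ⟨a1, ?_⟩
      obtain ⟨u1, hu1⟩ := a1
      have a2 : IsCoprime u1 (e' : ℤ) := by
        rw [Int.isCoprime_iff_gcd_eq_one]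
        have a3 : Int.gcd ((e : ℤ) * u1) ((e : ℤ) * e') = e := by
          rw [← hu1]
          have : ((e : ℤ) * e') = N := by
            rw [hee]
            push_cast
            ring
          rw [this]
          exact hpe
        rw [Int.gcd_mul_left, Int.natAbs_natCast] at a3
        exact Nat.eq_of_mul_eq_mul_left he0 (by rw [a3, Nat.mul_one])
      have a4 : (e : ℤ) * (u1 * (p.1 * y0 + x0 * p.2)) = e * (e' * (y0 ^ 2 - p.2 ^ 2)) := by
        have b1 : (p.1 * y0 - x0 * p.2) * (p.1 * y0 + x0 * p.2) = N * (y0 ^ 2 - p.2 ^ 2) := by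
          linear_combination y0 ^ 2 * h1 - p.2 ^ 2 * h30
        rw [hu1] at b1
        have b2 : (N : ℤ) = e * e' := by
          rw [hee]
          push_cast
          ring
        rw [b2] at b1
        linear_combination b1
      have a5 := mul_left_cancel₀ (by exact_mod_cast he0.ne' : (e : ℤ) ≠ 0) a4
      exact a2.symm.dvd_of_dvd_mul_left ⟨_, a5⟩
    rcases (S.filter fun p => Int.gcd (p.1 * y0 - x0 * p.2) N = e).eq_empty_or_nonempty with
      hE | ⟨⟨x', y'⟩, hs'⟩
    · rw [hE]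
      simp
    rw [Finset.mem_filter] at hs'
    obtain ⟨hsS', hse'⟩ := hs'
    obtain ⟨h2, -⟩ := hS _ hsS'
    obtain ⟨hu', hv'⟩ := key _ hsS' hse'
    dsimp only at h2 hu' hv'
    set m : ℕ := Nat.lcm e e' with hm
    set h : ℕ := Nat.gcd e e' with hh
    have hhm : h * m = N := by rw [hh, hm, Nat.gcd_mul_lcm, hee]
    have hm0 : (m : ℤ) ≠ 0 := by
      have : m ≠ 0 := fun h0 => by
        rw [h0, Nat.mul_zero] at hhm
        omega
      exact_mod_cast this
    have hcard : (Finset.Icc (-(4 * d : ℤ)) (4 * d) ×ˢ Finset.Icc (-(4 * d : ℤ)) (4 * d)).card =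
        (8 * d + 1) ^ 2 := by
      rw [Finset.card_product, Int.card_Icc, sq]
      have : ((4 * d : ℤ) + 1 - -(4 * d)).toNat = 8 * d + 1 := by omega
      rw [this]
    rw [← hcard]
    refine Finset.card_le_card_of_injOn (fun p : ℤ × ℤ =>
      ((p.1 * x' + d * (p.2 * y')) / m, (p.1 * y' - x' * p.2) / m)) ?_ ?_
    · intro p hp
      rw [Finset.mem_coe, Finset.mem_filter] at hp
      obtain ⟨h1, hc⟩ := hS _ hp.1
      obtain ⟨hu, hv⟩ := key _ hp.1 hp.2
      obtain ⟨r1, ⟨a, ha⟩, ⟨b, hb⟩⟩ := rep_two hee.symm (by omega) h1 h2 hc hc0 h30 hu hu' hv hv'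
      rw [← hm] at ha hb
      have r2 : (h : ℤ) ≤ 4 * d := by
        have := Nat.le_of_dvd (by omega) r1
        exact_mod_cast this
      have r3 : (m : ℤ) ^ 2 * (a ^ 2 + d * b ^ 2) = m ^ 2 * h ^ 2 := by
        have e1 : (p.1 * x' + d * (p.2 * y')) ^ 2 + d * (p.1 * y' - x' * p.2) ^ 2 =
            (p.1 ^ 2 + d * p.2 ^ 2) * (x' ^ 2 + d * y' ^ 2) := by ring
        rw [ha, hb, h1, h2] at e1
        have e2 : (N : ℤ) = h * m := by
          rw [← hhm]
          push_cast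
          ring
        rw [e2] at e1
        linear_combination e1
      have r4 := mul_left_cancel₀ (pow_ne_zero 2 hm0) r3
      have hd1 : (1 : ℤ) ≤ d := by exact_mod_cast hd
      have hh0 : (0 : ℤ) ≤ h := Int.natCast_nonneg _
      have hb2 : b ^ 2 ≤ d * b ^ 2 := by nlinarith [sq_nonneg b]
      have r5 : |a| ≤ h := abs_le_of_sq_le_sq (by nlinarith [sq_nonneg b]) hh0
      have r6 : |b| ≤ h := abs_le_of_sq_le_sq (by nlinarith [sq_nonneg a]) hh0
      rw [abs_le] at r5 r6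
      rw [Finset.mem_coe, Finset.mem_product, Finset.mem_Icc, Finset.mem_Icc]
      dsimp only
      rw [ha, hb, Int.mul_ediv_cancel_left _ hm0, Int.mul_ediv_cancel_left _ hm0]
      exact ⟨⟨by linarith, by linarith⟩, ⟨by linarith, by linarith⟩⟩
    · intro p hp q hq hpq
      rw [Finset.mem_coe, Finset.mem_filter] at hp hq
      obtain ⟨h1, hc⟩ := hS _ hp.1
      obtain ⟨hu, hv⟩ := key _ hp.1 hp.2
      obtain ⟨h1', hc'⟩ := hS _ hq.1
      obtain ⟨huq, hvq⟩ := key _ hq.1 hq.2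
      obtain ⟨-, ⟨a, ha⟩, ⟨b, hb⟩⟩ := rep_two hee.symm (by omega) h1 h2 hc hc0 h30 hu hu' hv hv'
      obtain ⟨-, ⟨a', ha'⟩, ⟨b', hb'⟩⟩ :=
        rep_two hee.symm (by omega) h1' h2 hc' hc0 h30 huq hu' hvq hv'
      rw [← hm] at ha hb ha' hb'
      have e1 : (p.1 * x' + d * (p.2 * y')) / (m : ℤ) = (q.1 * x' + d * (q.2 * y')) / m :=
        congrArg Prod.fst hpq
      have e2 : (p.1 * y' - x' * p.2) / (m : ℤ) = (q.1 * y' - x' * q.2) / m :=
        congrArg Prod.snd hpq
      rw [ha, ha', Int.mul_ediv_cancel_left _ hm0, Int.mul_ediv_cancel_left _ hm0] at e1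
      rw [hb, hb', Int.mul_ediv_cancel_left _ hm0, Int.mul_ediv_cancel_left _ hm0] at e2
      rw [← e1] at ha'
      rw [← e2] at hb'
      have f1 : (N : ℤ) * (p.1 - q.1) = 0 := by
        rw [← h2]
        linear_combination x' * ha - x' * ha' + d * y' * hb - d * y' * hb'
      have f2 : (N : ℤ) * (p.2 - q.2) = 0 := by
        rw [← h2]
        linear_combination y' * ha - y' * ha' - x' * hb + x' * hb'
      have g1 := (mul_eq_zero.1 f1).resolve_left hNz
      have g2 := (mul_eq_zero.1 f2).resolve_left hNz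
      exact Prod.ext (by linarith) (by linarith)

/-- all solutions -/
theorem rep_all (d N : ℕ) (hd : 1 ≤ d) (hN : 1 ≤ N) (S : Finset (ℤ × ℤ))
    (hS : ∀ p ∈ S, p.1 ^ 2 + d * p.2 ^ 2 = N) :
    S.card ≤ (8 * d + 1) ^ 2 * N.divisors.card ^ 2 := by
  classical
  have hNz : (N : ℤ) ≠ 0 := by exact_mod_cast (by omega : N ≠ 0)
  have hg : ∀ p ∈ S, 0 < Int.gcd p.1 p.2 ∧ ((Int.gcd p.1 p.2 : ℕ) : ℤ) ^ 2 ∣ N := by
    intro p hp
    have h1 := hS p hp
    constructor
    · rw [Int.gcd_pos_iff]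
      by_contra h0
      have h2 : p.1 = 0 ∧ p.2 = 0 := by
        constructor
        · by_contra h
          exact h0 (Or.inl h)
        · by_contra h
          exact h0 (Or.inr h)
      rw [h2.1, h2.2] at h1
      apply hNz
      rw [← h1]
      ring
    · rw [← h1]
      exact dvd_add (pow_dvd_pow_of_dvd (Int.gcd_dvd_left _ _) 2)
        ((pow_dvd_pow_of_dvd (Int.gcd_dvd_right _ _) 2).mul_left _)
  have hle : S.card ≤ ((8 * d + 1) ^ 2 * N.divisors.card) * N.divisors.card := by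
    refine Finset.card_le_mul_card_image_of_maps_to
      (f := fun p : ℤ × ℤ => Int.gcd p.1 p.2) (t := N.divisors) ?_ _ ?_
    · intro p hp
      rw [Nat.mem_divisors]
      refine ⟨?_, by omega⟩
      have h2 := (dvd_pow_self ((Int.gcd p.1 p.2 : ℕ) : ℤ) two_ne_zero).trans (hg p hp).2
      exact Int.natCast_dvd_natCast.1 h2
    · intro g _
      rcases (S.filter fun p => Int.gcd p.1 p.2 = g).eq_empty_or_nonempty with hE | ⟨s, hs⟩
      · rw [hE]
        simp
      rw [Finset.mem_filter] at hs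
      obtain ⟨hg0, hgN⟩ := hg s hs.1
      rw [hs.2] at hg0 hgN
      have hgN' : g ^ 2 ∣ N := by
        have : ((g ^ 2 : ℕ) : ℤ) ∣ N := by
          push_cast
          exact hgN
        exact Int.natCast_dvd_natCast.1 this
      obtain ⟨N', hN'⟩ := hgN'
      have hN'0 : 1 ≤ N' := Nat.pos_of_ne_zero fun h => by
        rw [h, Nat.mul_zero] at hN'
        omega
      have hgz : (g : ℤ) ≠ 0 := by exact_mod_cast hg0.ne'
      have hdiv : N'.divisors.card ≤ N.divisors.card :=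
        Finset.card_le_card (Nat.divisors_subset_of_dvd (by omega) ⟨g ^ 2, by rw [hN']; ring⟩)
      have hfst : ∀ p ∈ S.filter (fun p => Int.gcd p.1 p.2 = g),
          p.1 = g * (p.1 / g) ∧ p.2 = g * (p.2 / g) := by
        intro p hp
        rw [Finset.mem_filter] at hp
        constructor
        · refine (Int.mul_ediv_cancel' ?_).symm
          rw [← hp.2]
          exact Int.gcd_dvd_left _ _
        · refine (Int.mul_ediv_cancel' ?_).symm
          rw [← hp.2]
          exact Int.gcd_dvd_right _ _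
      have himg : (S.filter fun p => Int.gcd p.1 p.2 = g).card =
          ((S.filter fun p => Int.gcd p.1 p.2 = g).image
            fun p => (p.1 / (g : ℤ), p.2 / (g : ℤ))).card := by
        refine (Finset.card_image_of_injOn ?_).symm
        intro p hp q hq hpq
        obtain ⟨a1, a2⟩ := hfst p hp
        obtain ⟨b1, b2⟩ := hfst q hq
        have c1 : p.1 / (g : ℤ) = q.1 / g := congrArg Prod.fst hpq
        have c2 : p.2 / (g : ℤ) = q.2 / g := congrArg Prod.snd hpq
        exact Prod.ext (by rw [a1, b1, c1]) (by rw [a2, b2, c2])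
      rw [himg]
      refine (rep_prim d N' hd hN'0 _ ?_).trans (Nat.mul_le_mul_left _ hdiv)
      intro r hr
      rw [Finset.mem_image] at hr
      obtain ⟨p, hp, rfl⟩ := hr
      obtain ⟨a1, a2⟩ := hfst p hp
      rw [Finset.mem_filter] at hp
      have h1 := hS p hp.1
      dsimp only
      constructor
      · rw [a1, a2, hN'] at h1
        push_cast at h1
        apply mul_left_cancel₀ (pow_ne_zero 2 hgz)
        linear_combination h1
      · rw [Int.isCoprime_iff_gcd_eq_one]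
        have h2 := hp.2
        rw [a1, a2, Int.gcd_mul_left, Int.natAbs_natCast] at h2
        exact Nat.eq_of_mul_eq_mul_left hg0 (by rw [h2, Nat.mul_one])
  refine hle.trans (le_of_eq ?_)
  ring

end Pool.Helper34.R7
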