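import Pool.Agent.Helper17.RS.Sheet
import Pool.Agent.Helper15.HallDiv
import Pool.Agent.Helper34.R7.REP

/-! # Multiplicities `N ^ ε` when `A` is a definite binary form in two linear forms -/

set_option autoImplicit false

namespace Pool.Helper34.R7

open Pool.Helper17.RS

open Classical in
/-- If `c A = -(L₁² + d L₂²)` and `(L₁, L₂, B)` determines the parameter, then a pair `(A, B)` is
taken at most `K N^ε` times in the box. -/
theorem multt_gen (A B L1 L2 : (Fin 3 → ℕ) → ℤ) (c d : ℕ) (hc : 1 ≤ c) (hd : 1 ≤ d)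
    (hA : ∀ t, (c : ℤ) * A t = -(L1 t ^ 2 + d * L2 t ^ 2))
    (hInj : ∀ t t', L1 t = L1 t' → L2 t = L2 t' → B t = B t' → t = t')
    (hB : ∃ C : ℤ, 1 ≤ C ∧ ∀ N : ℕ, 1 ≤ N → ∀ t ∈ Box N, |A t| ≤ C * (N : ℤ) ^ 4) :
    ∀ ε : ℝ, 0 < ε → ∃ K : ℝ, 0 < K ∧ ∀ N : ℕ, 1 ≤ N → ∀ p : ℤ × ℤ,
      (((Box N).filter (fun t => A t = p.1 ∧ B t = p.2)).card : ℝ) ≤ K * (N : ℝ) ^ ε := by
  intro ε hε
  obtain ⟨C, hC, hB⟩ := hB
  obtain ⟨C', hC', hdiv⟩ := Pool.Agent.Helper15.Hall.card_divisors_le_uniform (ε / 8) (by positivity)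
  set M : ℕ := c * C.toNat with hM
  refine ⟨(8 * d + 1) ^ 2 * (C' ^ 2 * (M : ℝ) ^ (ε / 4)) + 1, by positivity, fun N hN p => ?_⟩
  have hNr : (1 : ℝ) ≤ N := by exact_mod_cast hN
  have hNe : (1 : ℝ) ≤ (N : ℝ) ^ ε := Real.one_le_rpow hNr hε.le
  set T := (Box N).filter (fun t => A t = p.1 ∧ B t = p.2) with hT
  have hpos : (0 : ℝ) ≤ (8 * d + 1) ^ 2 * (C' ^ 2 * (M : ℝ) ^ (ε / 4)) := by positivity
  have hinj : ∀ t ∈ T, ∀ t' ∈ T, (L1 t, L2 t) = (L1 t', L2 t') → t = t' := by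
    intro t ht t' ht' h
    rw [hT, Finset.mem_filter] at ht ht'
    rw [Prod.mk.injEq] at h
    exact hInj t t' h.1 h.2 (by rw [ht.2.2, ht'.2.2])
  have hp : ∀ t ∈ T, L1 t ^ 2 + d * L2 t ^ 2 = -(c * p.1) := by
    intro t ht
    rw [hT, Finset.mem_filter] at ht
    have := hA t
    rw [ht.2.1] at this
    linarith
  have hd0 : (0 : ℤ) < d := by exact_mod_cast hd
  have hcard : T.card = (T.image fun t => (L1 t, L2 t)).card :=
    (Finset.card_image_of_injOn fun t ht t' ht' h => hinj t ht t' ht' h).symm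
  rcases lt_trichotomy (-(c * p.1)) 0 with h0 | h0 | h0
  · have hE : T = ∅ := by
      rw [Finset.eq_empty_iff_forall_notMem]
      intro t ht
      have h1 := hp t ht
      nlinarith [sq_nonneg (L1 t), mul_nonneg hd0.le (sq_nonneg (L2 t))]
    rw [hE, Finset.card_empty]
    push_cast
    positivity
  · have hle : T.card ≤ 1 := by
      rw [Finset.card_le_one]
      intro t ht t' ht'
      apply hinj t ht t' ht'
      have h1 := hp t ht
      have h2 := hp t' ht'
      have h3 : ∀ a b : ℤ, a ^ 2 + d * b ^ 2 = 0 → a = 0 ∧ b = 0 := by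
        intro a b hab
        have h4 : a ^ 2 = 0 := by nlinarith [sq_nonneg a, mul_nonneg hd0.le (sq_nonneg b)]
        have h5 : (d : ℤ) * b ^ 2 = 0 := by linarith
        refine ⟨by simpa using h4, ?_⟩
        rcases mul_eq_zero.1 h5 with h6 | h6
        · omega
        · simpa using h6
      obtain ⟨e1, e2⟩ := h3 _ _ (h1.trans h0)
      obtain ⟨e3, e4⟩ := h3 _ _ (h2.trans h0)
      rw [e1, e2, e3, e4]
    have hle' : (T.card : ℝ) ≤ 1 := by exact_mod_cast hle
    nlinarith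
  · rcases T.eq_empty_or_nonempty with hE | ⟨t0, ht0⟩
    · rw [hE, Finset.card_empty]
      push_cast
      positivity
    · set n : ℕ := (-(c * p.1)).toNat with hn
      have hnz : (n : ℤ) = -(c * p.1) := Int.toNat_of_nonneg h0.le
      have hn1 : 1 ≤ n := by omega
      have h1 := rep_all d n hd hn1 (T.image fun t => (L1 t, L2 t)) (by
        intro q hq
        obtain ⟨t, ht, rfl⟩ := Finset.mem_image.1 hq
        dsimp only
        rw [hp t ht, hnz])
      rw [← hcard] at h1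
      have hnM : n ≤ M * N ^ 4 := by
        have h2 := hB N hN t0 (Finset.mem_filter.1 (by rw [hT] at ht0; exact ht0)).1
        have h3 : A t0 = p.1 := by
          have := ht0
          rw [hT, Finset.mem_filter] at this
          exact this.2.1
        rw [h3] at h2
        have h4 : -p.1 ≤ C * (N : ℤ) ^ 4 := (neg_le_abs p.1).trans h2
        have h5 : ((n : ℕ) : ℤ) ≤ ((M * N ^ 4 : ℕ) : ℤ) := by
          rw [hnz, hM]
          push_cast
          rw [Int.toNat_of_nonneg (by omega)]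
          have hc0 : (0 : ℤ) ≤ c := by positivity
          nlinarith [mul_le_mul_of_nonneg_left h4 hc0]
        exact_mod_cast h5
      have h6 := hdiv (M * N ^ 4) n (by omega) hnM
      have hτ : (0 : ℝ) ≤ (n.divisors.card : ℝ) := by positivity
      have h7 : ((n.divisors.card : ℝ)) ^ 2 ≤ C' ^ 2 * (M : ℝ) ^ (ε / 4) * (N : ℝ) ^ ε := by
        have h8 : (((M * N ^ 4 : ℕ) : ℝ) ^ (ε / 8)) ^ 2 = (M : ℝ) ^ (ε / 4) * (N : ℝ) ^ ε := by
          rw [← Real.rpow_natCast, ← Real.rpow_mul (by positivity)]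
          push_cast
          rw [Real.mul_rpow (by positivity) (by positivity), ← Real.rpow_natCast (N : ℝ) 4,
            ← Real.rpow_mul (by positivity)]
          have e1 : ε / 8 * 2 = ε / 4 := by ring
          have e2 : ((4 : ℕ) : ℝ) * (ε / 8 * 2) = ε := by
            push_cast
            ring
          rw [e2, e1]
        calc ((n.divisors.card : ℝ)) ^ 2 ≤ (C' * ((M * N ^ 4 : ℕ) : ℝ) ^ (ε / 8)) ^ 2 :=
              pow_le_pow_left₀ hτ h6 2
          _ = C' ^ 2 * (((M * N ^ 4 : ℕ) : ℝ) ^ (ε / 8)) ^ 2 := by ring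
          _ = _ := by
            rw [h8]
            ring
      have h9 : (T.card : ℝ) ≤ (8 * d + 1) ^ 2 * ((n.divisors.card : ℝ)) ^ 2 := by
        exact_mod_cast h1
      have h10 : ((8 * d + 1 : ℝ)) ^ 2 * ((n.divisors.card : ℝ)) ^ 2 ≤
          (8 * d + 1) ^ 2 * (C' ^ 2 * (M : ℝ) ^ (ε / 4) * (N : ℝ) ^ ε) :=
        mul_le_mul_of_nonneg_left h7 (by positivity)
      have hx : ((8 * d + 1 : ℝ)) ^ 2 * (C' ^ 2 * (M : ℝ) ^ (ε / 4) * (N : ℝ) ^ ε) =
          ((8 * d + 1) ^ 2 * (C' ^ 2 * (M : ℝ) ^ (ε / 4))) * (N : ℝ) ^ ε := by ring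
      rw [hx] at h10
      have h11 := h9.trans h10
      nlinarith

end Pool.Helper34.R7
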