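import Pool.Agent.Helper66.R7.Sheet
import Pool.Agent.Helper34.R7.MG

/-! # Row MULTT of family T (MP_798d7d_nt, rank seven) -/

set_option autoImplicit false

namespace Pool.Helper66.R7

open Pool.Helper17.RS (MM Cong Box yy)

theorem MM_pos : (0 : ℤ) < MM := by
  unfold MM
  exact_mod_cast Nat.factorial_pos 1000

theorem cong_yy (b : Fin 3 → ℤ) (t : Fin 3 → ℕ) : Cong b (yy b t) := by
  intro i
  unfold yy
  exact ⟨(t i : ℤ), by ring⟩

theorem yy_pos (t : Fin 3 → ℕ) (i : Fin 3) : 0 < yy tb t i := by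
  unfold yy
  have h1 : (0 : ℤ) ≤ MM * (t i : ℤ) := mul_nonneg MM_pos.le (by positivity)
  have h2 : 0 < tb i := by
    fin_cases i <;> simp [tb]
  omega

theorem yy_inj {t t' : Fin 3 → ℕ} (h : yy tb t = yy tb t') : t = t' := by
  funext i
  have h1 := congrFun h i
  unfold yy at h1
  have h2 : MM * (t i : ℤ) = MM * (t' i : ℤ) := by linarith
  have h3 := mul_left_cancel₀ MM_pos.ne' h2
  exact_mod_cast h3

open Classical in
theorem st_MULTT (hI : ST_INJT) (hC : ST_CERTT) (hB : ST_BNDT) : ST_MULTT := by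
  refine Pool.Helper34.R7.multt_gen (fun t => tA (yy tb t)) (fun t => tB (yy tb t))
    (fun t => 3 * M1 (yy tb t 0 ^ 2) (yy tb t 1 ^ 2) (yy tb t 2 ^ 2))
    (fun t => 70 * M2 (yy tb t 0 ^ 2) (yy tb t 1 ^ 2)) (2451 * 15552) 3 (by norm_num)
    (by norm_num) ?_ ?_ ?_
  · intro t
    obtain ⟨h1, -⟩ := hC _ (cong_yy tb t)
    have h2 := chk_form (yy tb t 0 ^ 2) (yy tb t 1 ^ 2) (yy tb t 2 ^ 2)
    push_cast
    rw [← h2]
    linarith
  · intro t t' e1 e2 e3
    obtain ⟨-, h1, -⟩ := hC _ (cong_yy tb t)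
    obtain ⟨-, h2, -⟩ := hC _ (cong_yy tb t')
    refine yy_inj (hI _ _ (cong_yy tb t) (cong_yy tb t') (yy_pos t) (yy_pos t') ?_ ?_ ?_)
    · linarith
    · linarith
    · rw [← h1, ← h2, e3]
  · obtain ⟨C, hC1, h⟩ := hB
    exact ⟨C, hC1, fun N hN t ht => (h N hN t ht).2.1⟩

end Pool.Helper66.R7
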